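import Pool.Agent.X240.OR.Words

/-!
# One-relator groups
-/

set_option autoImplicit false

namespace Pool.Agent.X240.OR

open scoped commutatorElement

universe u

/-- The one-relator group `⟨x_0, …, x_(n-1) | r⟩`. -/
abbrev Grp (n : ℕ) (r : Word (Fin n)) : Type :=
  PresentedGroup ({FreeGroup.mk r} : Set (FreeGroup (Fin n)))

/-- The equation `w = 1` in `k` variables with constants has a solution in `⟨x | r⟩`. -/
def Sol (n k : ℕ) (r : Word (Fin n)) (w : Word (Fin n ⊕ Fin k)) : Prop :=
  ∃ x : Fin k → Grp n r, val (Sum.elim (fun i => (PresentedGroup.of i : Grp n r)) x) w = 1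

/-- The positive formula in conjunctive normal form (a list of lists of words; the conjunction of
the disjunctions of the equations `w = 1`) is satisfied in `⟨x | r⟩` by some `k` elements. -/
def PosSol (n k : ℕ) (r : Word (Fin n)) (φ : List (List (Word (Fin n ⊕ Fin k)))) : Prop :=
  ∃ x : Fin k → Grp n r, ∀ cl ∈ φ, ∃ w ∈ cl,
    val (Sum.elim (fun i => (PresentedGroup.of i : Grp n r)) x) w = 1

theorem val_eq_lift {α : Type} {K : Type u} [Group K] (f : α → K) (w : Word α) :
    val f w = FreeGroup.lift f (FreeGroup.mk w) := by
  rw [FreeGroup.lift_mk]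
  unfold val
  congr 1
  apply List.map_congr_left
  rintro ⟨a, b⟩ _
  cases b <;> rfl

theorem val_of (n : ℕ) (r : Word (Fin n)) :
    val (fun i => (PresentedGroup.of i : Grp n r)) r = 1 := by
  rw [val_eq_lift]
  have h : FreeGroup.lift (fun i => (PresentedGroup.of i : Grp n r)) =
      PresentedGroup.mk ({FreeGroup.mk r} : Set (FreeGroup (Fin n))) := by
    ext i
    simp [PresentedGroup.of]
  rw [h]
  exact PresentedGroup.one_of_mem (Set.mem_singleton _)

/-- the relator over the alphabet with one more letter -/
def more {n : ℕ} (r : Word (Fin n)) : Word (Fin (n + 1)) := rename Fin.castSucc r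

/-- the homomorphism to the group with one more generator -/
noncomputable def jj (n : ℕ) (r : Word (Fin n)) : Grp n r →* Grp (n + 1) (more r) :=
  PresentedGroup.toGroup (f := fun i => (PresentedGroup.of (Fin.castSucc i) :
    Grp (n + 1) (more r))) (by
      intro z hz
      rw [Set.mem_singleton_iff] at hz
      rw [hz, ← val_eq_lift]
      have := val_of (n + 1) (more r)
      unfold more at this
      rw [val_rename] at this
      exact this)

/-- the images of the generators -/
noncomputable def qf (n : ℕ) (r : Word (Fin n)) (i : Fin (n + 1)) : Hh (Grp n r) :=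
  Fin.lastCases (sg (Grp n r)) (fun i => Monoid.Coprod.inl (PresentedGroup.of i : Grp n r)) i

/-- the homomorphism to the free product with the integers -/
noncomputable def qq (n : ℕ) (r : Word (Fin n)) : Grp (n + 1) (more r) →* Hh (Grp n r) :=
  PresentedGroup.toGroup (f := qf n r) (by
      intro z hz
      rw [Set.mem_singleton_iff] at hz
      rw [hz, ← val_eq_lift]
      unfold more
      rw [val_rename]
      have h : (fun a => qf n r (Fin.castSucc a)) = fun a =>
          (Monoid.Coprod.inl : Grp n r →* Hh (Grp n r)) (PresentedGroup.of a : Grp n r) := by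
        funext a
        simp [qf]
      rw [h, ← map_val, val_of, map_one])

/-- the reduction -/
def red (n k : ℕ) (φ : List (List (Word (Fin n ⊕ Fin k)))) : Word (Fin (n + 1) ⊕ Fin k) :=
  weq (Sum.inl (Fin.last n)) (φ.map fun cl => cl.map fun w => rename (Sum.map Fin.castSucc id) w)

theorem red_sol (n k : ℕ) (r : Word (Fin n)) (φ : List (List (Word (Fin n ⊕ Fin k)))) :
    PosSol n k r φ ↔ Sol (n + 1) k (more r) (red n k φ) := by
  apply transfer (G := Grp n r) (G' := Grp (n + 1) (more r)) Fin.castSucc (Fin.last n)
    (fun i => (PresentedGroup.of i : Grp n r)) (fun i => PresentedGroup.of i) (jj n r) (qq n r)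
  · intro a
    unfold jj
    rw [PresentedGroup.toGroup.of]
  · intro a
    unfold qq
    rw [PresentedGroup.toGroup.of]
    simp [qf]
  · unfold qq
    rw [PresentedGroup.toGroup.of]
    simp [qf]

section balanced

variable {α : Type} [DecidableEq α]

theorem count_winv (w : Word α) (a : α) (b : Bool) :
    (winv w).count (a, b) = w.count (a, !b) := by
  unfold winv
  rw [List.count_reverse]
  have hinj : Function.Injective (fun p : α × Bool => (p.1, !p.2)) := by
    rintro ⟨a, b⟩ ⟨a', b'⟩ h
    simp only [Prod.mk.injEq] at h
    obtain ⟨h1, h2⟩ := h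
    rw [h1]
    congr 1
    cases b <;> cases b' <;> simp_all
  have := List.count_map_of_injective w (fun p : α × Bool => (p.1, !p.2)) hinj (a, !b)
  simpa using this

theorem balanced_wcomm (u v : Word α) : Balanced (wcomm u v) := by
  intro a
  unfold wcomm
  simp only [List.count_append, count_winv]
  simp
  omega

theorem balanced_append {u v : Word α} (h1 : Balanced u) (h2 : Balanced v) :
    Balanced (u ++ v) := by
  intro a
  rw [List.count_append, List.count_append, h1 a, h2 a]

theorem balanced_flatMap {β : Type} (l : List β) (g : β → Word α) (h : ∀ b, Balanced (g b)) :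
    Balanced (l.flatMap g) := by
  induction l with
  | nil => intro a; rfl
  | cons b l ih =>
    rw [List.flatMap_cons]
    exact balanced_append (h b) ih

theorem balanced_wmain (σ : α) (φ : List (List (Word α))) : Balanced (wmain σ φ) :=
  balanced_flatMap _ _ fun _ => balanced_wcomm _ _

theorem not_balanced (σ : α) : ¬ Balanced [(σ, true)] := by
  intro h
  have := h σ
  simp at this

end balanced

theorem balanced_red (n k : ℕ) (r : Word (Fin n)) (φ : List (List (Word (Fin n ⊕ Fin k)))) :
    PosSol n k r φ ↔ Balanced (red n k φ) ∧ Sol (n + 1) k (more r) (red n k φ) := by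
  constructor
  · intro h
    refine ⟨?_, (red_sol n k r φ).1 h⟩
    unfold red weq
    rw [if_neg]
    · exact balanced_wmain _ _
    · intro he
      rw [List.any_eq_true] at he
      obtain ⟨cl', h1, h2⟩ := he
      rw [List.mem_map] at h1
      obtain ⟨cl, h3, rfl⟩ := h1
      obtain ⟨x, hx⟩ := h
      obtain ⟨w, hw, _⟩ := hx cl h3
      have : cl = [] := by simpa using h2
      rw [this] at hw
      simp at hw
  · intro h
    exact (red_sol n k r φ).2 h.2

/-! ### Computability -/

section prim

variable {α : Type} [Primcodable α]

theorem prim_winv : Primrec (winv : Word α → Word α) :=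
  Primrec.list_reverse.comp (Primrec.list_map Primrec.id
    ((Primrec.pair (Primrec.fst.comp Primrec.snd)
      (Primrec.not.comp (Primrec.snd.comp Primrec.snd))).to₂))

theorem prim_wcomm : Primrec₂ (wcomm : Word α → Word α → Word α) := by
  unfold wcomm
  exact (Primrec.list_append.comp (Primrec.list_append.comp (Primrec.list_append.comp
    Primrec.fst Primrec.snd) (prim_winv.comp Primrec.fst)) (prim_winv.comp Primrec.snd)).to₂

theorem prim_wconj : Primrec₂ (wconj : Word α → Word α → Word α) := by
  unfold wconj
  exact (Primrec.list_append.comp (Primrec.list_append.comp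
    Primrec.fst Primrec.snd) (prim_winv.comp Primrec.fst)).to₂

theorem prim_wpow (σ : α) : Primrec (wpow σ : ℕ → Word α) := by
  have h : Primrec (fun e : ℕ => (List.range e).map (fun _ => (σ, true))) :=
    Primrec.list_map Primrec.list_range (Primrec.const (σ, true)).to₂
  refine h.of_eq fun e => ?_
  unfold wpow
  simp

theorem prim_wstep (σ : α) : Primrec₂ (wstep σ) := by
  unfold wstep
  have hE : Primrec (fun q : ((ℕ × List (Word α)) × Word α) × Word α => q.2) := Primrec.snd
  have hw : Primrec (fun q : ((ℕ × List (Word α)) × Word α) × Word α => q.1.2) :=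
    Primrec.snd.comp Primrec.fst
  have he : Primrec (fun q : ((ℕ × List (Word α)) × Word α) × Word α => q.1.1.1) :=
    Primrec.fst.comp (Primrec.fst.comp Primrec.fst)
  have h1 : Primrec (fun q : ((ℕ × List (Word α)) × Word α) × Word α => wcomm q.2 q.1.2) :=
    prim_wcomm.comp hE hw
  have h2 : Primrec (fun q : ((ℕ × List (Word α)) × Word α) × Word α =>
      wcomm q.2 (wconj (wpow σ q.1.1.1) q.1.2)) :=
    prim_wcomm.comp hE (prim_wconj.comp ((prim_wpow σ).comp he) hw)
  have h3 : Primrec (fun q : ((ℕ × List (Word α)) × Word α) × Word α =>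
      [wcomm q.2 q.1.2, wcomm q.2 (wconj (wpow σ q.1.1.1) q.1.2)]) :=
    Primrec.list_cons.comp h1 (Primrec.list_cons.comp h2 (Primrec.const []))
  have h4 : Primrec (fun q : (ℕ × List (Word α)) × Word α =>
      q.1.2.flatMap fun E => [wcomm E q.2, wcomm E (wconj (wpow σ q.1.1) q.2)]) :=
    Primrec.list_flatMap (Primrec.snd.comp Primrec.fst) h3.to₂
  exact (Primrec.pair (Primrec.nat_mul.comp (Primrec.const 3) (Primrec.fst.comp Primrec.fst))
    h4).to₂

theorem prim_wdis (σ : α) : Primrec (wdis σ) := by
  have hh : Primrec₂ (fun (_ : List (Word α)) (q : (ℕ × List (Word α)) × Word α) =>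
      wstep σ q.1 q.2) :=
    ((prim_wstep σ).comp (Primrec.fst.comp Primrec.snd) (Primrec.snd.comp Primrec.snd)).to₂
  have hg : Primrec (fun cl : List (Word α) => ((1 : ℕ), [cl.head?.getD []])) :=
    Primrec.pair (Primrec.const 1) (Primrec.list_cons.comp
      (Primrec.option_getD.comp Primrec.list_head? (Primrec.const [])) (Primrec.const []))
  have h : Primrec (fun cl : List (Word α) =>
      (cl.tail.foldl (wstep σ) (1, [cl.head?.getD []])).2) :=
    Primrec.snd.comp (Primrec.list_foldl Primrec.list_tail hg hh)
  refine h.of_eq fun cl => ?_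
  unfold wdis
  rw [List.headD_eq_head?_getD]

theorem prim_wtop {β : Type} [Primcodable β] : Primrec (wtop : List β → ℕ) := by
  unfold wtop
  exact Primrec.list_foldl Primrec.id (Primrec.const 1)
    ((Primrec.nat_mul.comp (Primrec.const 3) (Primrec.fst.comp Primrec.snd)).to₂)

theorem prim_wmain (σ : α) : Primrec (wmain σ) := by
  unfold wmain
  have h1 : Primrec (fun φ : List (List (Word α)) => φ.flatMap (wdis σ)) :=
    Primrec.list_flatMap Primrec.id ((prim_wdis σ).comp Primrec.snd).to₂
  have h2 : Primrec (fun q : List (List (Word α)) × Word α =>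
      wcomm q.2 (wpow σ (wtop q.1.flatten))) :=
    prim_wcomm.comp Primrec.snd ((prim_wpow σ).comp (prim_wtop.comp
      (Primrec.list_flatten.comp Primrec.fst)))
  exact Primrec.list_flatMap h1 h2.to₂

theorem prim_any {β : Type} [Primcodable β] :
    Primrec (fun φ : List (List β) => φ.any List.isEmpty) := by
  have hl : Primrec (fun q : List (List β) × (List β × Bool) => q.2.1.length) :=
    Primrec.list_length.comp (Primrec.fst.comp Primrec.snd)
  have hd : Primrec (fun q : List (List β) × (List β × Bool) => decide (q.2.1.length = 0)) :=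
    (Primrec.eq.comp hl (Primrec.const 0)).decide
  have hb : Primrec (fun q : List (List β) × (List β × Bool) => q.2.2) :=
    Primrec.snd.comp Primrec.snd
  have h : Primrec (fun φ : List (List β) =>
      φ.foldr (fun cl b => decide (cl.length = 0) || b) false) :=
    Primrec.list_foldr Primrec.id (Primrec.const false) (Primrec.or.comp hd hb).to₂
  refine h.of_eq fun φ => ?_
  induction φ with
  | nil => rfl
  | cons cl φ ih =>
    rw [List.foldr_cons, List.any_cons, ih]
    cases cl <;> rfl

theorem prim_weq (σ : α) : Primrec (weq σ) := by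
  unfold weq
  exact Primrec.ite (Primrec.eq.comp prim_any (Primrec.const true)) (Primrec.const _)
    (prim_wmain σ)

theorem prim_rename {β : Type} [Primcodable β] {e : α → β} (he : Primrec e) :
    Primrec (rename e) := by
  unfold rename
  exact Primrec.list_map Primrec.id ((Primrec.pair (he.comp (Primrec.fst.comp Primrec.snd))
    (Primrec.snd.comp Primrec.snd)).to₂)

theorem prim_red (n k : ℕ) : Primrec (red n k) := by
  have h1 : Primrec (rename (Sum.map Fin.castSucc id) :
      Word (Fin n ⊕ Fin k) → Word (Fin (n + 1) ⊕ Fin k)) := prim_rename (Primrec.dom_finite _)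
  have h2 : Primrec (fun cl : List (Word (Fin n ⊕ Fin k)) =>
      cl.map fun w => rename (Sum.map (Fin.castSucc (n := n)) (id : Fin k → Fin k)) w) :=
    Primrec.list_map Primrec.id (h1.comp Primrec.snd).to₂
  have h3 : Primrec (fun φ : List (List (Word (Fin n ⊕ Fin k))) => φ.map fun cl =>
      cl.map fun w => rename (Sum.map (Fin.castSucc (n := n)) (id : Fin k → Fin k)) w) :=
    Primrec.list_map Primrec.id (h2.comp Primrec.snd).to₂
  exact (prim_weq _).comp h3

end prim

/-! ### The main theorem -/

section bal

variable {α : Type} [Primcodable α] [DecidableEq α]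

theorem prim_count (p : α × Bool) : Primrec (fun w : Word α => w.count p) := by
  have hd : Primrec (fun q : Word α × (ℕ × (α × Bool)) => decide (q.2.2 = p)) :=
    (Primrec.eq.comp (Primrec.snd.comp Primrec.snd) (Primrec.const p)).decide
  have hn : Primrec (fun q : Word α × (ℕ × (α × Bool)) => q.2.1) :=
    Primrec.fst.comp Primrec.snd
  have h : Primrec (fun w : Word α =>
      w.foldl (fun n c => cond (decide (c = p)) (n + 1) n) 0) :=
    Primrec.list_foldl Primrec.id (Primrec.const 0)
      (Primrec.cond hd (Primrec.succ.comp hn) hn).to₂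
  refine h.of_eq fun w => ?_
  have key : ∀ (w : Word α) (n : ℕ),
      w.foldl (fun n c => cond (decide (c = p)) (n + 1) n) n = n + w.count p := by
    intro w
    induction w with
    | nil => intro n; simp
    | cons c w ih =>
      intro n
      rw [List.foldl_cons, ih, List.count_cons]
      by_cases hc : c = p
      · simp [hc]; omega
      · simp [hc]
  rw [key, zero_add]

theorem prim_balanced [Fintype α] : PrimrecPred (Balanced : Word α → Prop) := by
  have key : ∀ l : List α, PrimrecPred (fun w : Word α =>
      ∀ a ∈ l, w.count (a, true) = w.count (a, false)) := by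
    intro l
    induction l with
    | nil => exact (PrimrecPred.of_eq ((Primrec.eq (α := ℕ)).comp (Primrec.const 0)
        (Primrec.const 0)) (by intro w; simp))
    | cons a l ih =>
      refine PrimrecPred.of_eq (PrimrecPred.and (Primrec.eq.comp (prim_count (a, true))
        (prim_count (a, false))) ih) ?_
      intro w
      simp
  refine PrimrecPred.of_eq (key (Finset.univ : Finset α).toList) ?_
  intro w
  simp [Balanced]

end bal

theorem comp_and {α : Type} [Primcodable α] {p q : α → Prop} (hp : ComputablePred p)
    (hq : ComputablePred q) : ComputablePred (fun a => p a ∧ q a) := by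
  obtain ⟨f, hf, rfl⟩ := ComputablePred.computable_iff.1 hp
  obtain ⟨g, hg, rfl⟩ := ComputablePred.computable_iff.1 hq
  refine ComputablePred.computable_iff.2 ⟨fun a => f a && g a,
    (Primrec.and.to_comp).comp hf hg, ?_⟩
  funext a
  simp

/-- the three decision problems -/
theorem tfae (k : ℕ) : List.TFAE [
    ∀ (n : ℕ) (r : Word (Fin n)), ComputablePred (Sol n k r),
    ∀ (n : ℕ) (r : Word (Fin n)),
      ComputablePred (fun w => Balanced w ∧ Sol (n + 1) k (more r) w),
    ∀ (n : ℕ) (r : Word (Fin n)), ComputablePred (PosSol n k r)] := by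
  tfae_have 1 → 2 := by
    intro h n r
    exact comp_and prim_balanced.computablePred (h (n + 1) (more r))
  tfae_have 2 → 3 := by
    intro h n r
    refine ComputablePred.computable_of_manyOneReducible ⟨red n k, (prim_red n k).to_comp, ?_⟩
      (h n r)
    exact fun φ => balanced_red n k r φ
  tfae_have 3 → 1 := by
    intro h n r
    refine ComputablePred.computable_of_manyOneReducible
      ⟨fun w => [[w]], ?_, ?_⟩ (h n r)
    · exact (Primrec.list_cons.comp (Primrec.list_cons.comp Primrec.id (Primrec.const []))
        (Primrec.const [])).to_comp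
    · intro w
      unfold Sol PosSol
      simp
  tfae_finish

end Pool.Agent.X240.OR
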