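import Pool.Agent.X240.OR.Wr

/-!
# The tower of quotients of `G * ℤ`
-/

set_option autoImplicit false

namespace Pool.Agent.X240.OR

open scoped commutatorElement

universe u

variable {G : Type u} [Group G]

/-- the free product of `G` and an infinite cyclic group -/
abbrev Hh (G : Type u) [Group G] : Type u := Monoid.Coprod G (Multiplicative ℤ)

/-- the generator of the infinite cyclic free factor -/
def sg (G : Type u) [Group G] : Hh G := Monoid.Coprod.inr (Multiplicative.ofAdd (1 : ℤ))

/-- the retraction of `G * ℤ` onto `G` -/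
noncomputable def rho (G : Type u) [Group G] : Hh G →* G :=
  Monoid.Coprod.lift (MonoidHom.id G) 1

theorem rho_inl (g : G) : rho G (Monoid.Coprod.inl g) = g := by simp [rho]

theorem rho_sg : rho G (sg G) = 1 := by simp [rho, sg]

/-- the homomorphism given by a homomorphism of `G` and the image of the generator -/
noncomputable def mkH {K : Type u} [Group K] (f : G →* K) (t : K) : Hh G →* K :=
  Monoid.Coprod.lift f (zpowersHom K t)

theorem mkH_inl {K : Type u} [Group K] (f : G →* K) (t : K) (g : G) :
    mkH f t (Monoid.Coprod.inl g) = f g := by simp [mkH]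

theorem mkH_sg {K : Type u} [Group K] (f : G →* K) (t : K) : mkH f t (sg G) = t := by
  simp [mkH, sg, zpowersHom_apply]

theorem hom_ext' {K : Type u} [Group K] {f f' : Hh G →* K}
    (h1 : ∀ g : G, f (Monoid.Coprod.inl g) = f' (Monoid.Coprod.inl g))
    (h2 : f (sg G) = f' (sg G)) : f = f' := by
  apply Monoid.Coprod.hom_ext
  · ext g; exact h1 g
  · apply MonoidHom.ext_mint
    exact h2

/-- a quotient of `G * ℤ` in which the `e`-th power of the generator is trivial, and no nontrivial
commutator is a power of the generator -/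
structure Stage (G : Type u) [Group G] (e : ℕ) where
  /-- the group -/
  Q : Type u
  [grp : Group Q]
  /-- the homomorphism -/
  π : Hh G →* Q
  pow : (π (sg G)) ^ e = 1
  comm : ∀ x y : Q, ⁅x, y⁆ ∈ Subgroup.zpowers (π (sg G)) → ⁅x, y⁆ = 1

attribute [instance] Stage.grp

/-- the powers of the generator -/
def Stage.C {e : ℕ} (S : Stage G e) : Subgroup S.Q := Subgroup.zpowers (S.π (sg G))

/-- the elements which become powers of the generator -/
def Stage.P {e : ℕ} (S : Stage G e) (h : Hh G) : Prop := S.π h ∈ S.C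

theorem Stage.s_mem {e : ℕ} (S : Stage G e) : S.π (sg G) ∈ S.C := Subgroup.mem_zpowers _

/-- the homomorphism to the group of the pairs -/
noncomputable def Stage.up {e : ℕ} (S : Stage G e) (R : Type) [CommRing R] :
    Hh G →* Wr S.C R :=
  mkH (inr.comp (S.π.comp Monoid.Coprod.inl)) (el 1 (S.π (sg G)))

theorem Stage.up_sg {e : ℕ} (S : Stage G e) (R : Type) [CommRing R] :
    S.up R (sg G) = el 1 (S.π (sg G)) := mkH_sg _ _

theorem Stage.up_g {e : ℕ} (S : Stage G e) (R : Type) [CommRing R] (h : Hh G) :
    (S.up R h).g = S.π h := by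
  have : (right (C := S.C) (R := R)).comp (S.up R) = S.π := by
    apply hom_ext'
    · intro g
      rw [MonoidHom.comp_apply]
      unfold Stage.up
      rw [mkH_inl]
      rfl
    · rw [MonoidHom.comp_apply, S.up_sg]
      rfl
  exact DFunLike.congr_fun this h

theorem Stage.up_pow {e : ℕ} (S : Stage G e) (R : Type) [CommRing R] :
    S.up R (sg G ^ e) = el (e : R) 1 := by
  rw [map_pow, S.up_sg, el_pow _ S.s_mem, mul_one, S.pow]

/-- the first stage -/
noncomputable def base (G : Type u) [Group G] : Stage G 1 where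
  Q := G
  π := rho G
  pow := by rw [rho_sg, one_pow]
  comm x y h := by
    rw [rho_sg, Subgroup.zpowers_one_eq_bot, Subgroup.mem_bot] at h
    exact h

theorem base_P (h : Hh G) (hh : (base G).P h) : rho G h = 1 := by
  have : rho G h ∈ Subgroup.zpowers (rho G (sg G)) := hh
  rw [rho_sg, Subgroup.zpowers_one_eq_bot, Subgroup.mem_bot] at this
  exact this

/-- the next stage -/
noncomputable def Stage.next {e : ℕ} (S : Stage G e) : Stage G (3 * e) where
  Q := Wr S.C (ZMod (3 * e))
  π := S.up (ZMod (3 * e))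
  pow := by
    rw [S.up_sg, el_pow _ S.s_mem, mul_one]
    apply Wr.ext
    · rw [one_a]
      change Finsupp.single (x0 S.C) (((3 * e : ℕ) : ZMod (3 * e))) = 0
      rw [ZMod.natCast_self, Finsupp.single_zero]
    · rw [one_g]
      change S.π (sg G) ^ (3 * e) = 1
      rw [mul_comm, pow_mul, S.pow, one_pow]
  comm x y h := by
    rw [S.up_sg] at h
    obtain ⟨q, h1, h2⟩ := mem_zpowers_el S.s_mem h
    have h3 : (aug (C := S.C) (R := ZMod (3 * e))) ⁅x, y⁆ = 1 := by
      rw [map_commutatorElement, commutatorElement_eq_one_iff_mul_comm]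
      exact mul_comm _ _
    have h4 : q = 0 := by
      have : augH S.C (ZMod (3 * e)) (⁅x, y⁆ : Wr S.C (ZMod (3 * e))).a = 0 := h3
      rw [h1, augH_single] at this
      exact this
    have h5 : (⁅x, y⁆ : Wr S.C (ZMod (3 * e))).g = 1 := by
      have h6 : (right (C := S.C) (R := ZMod (3 * e))) ⁅x, y⁆ = ⁅x.g, y.g⁆ :=
        map_commutatorElement _ _ _
      have h7 : (⁅x, y⁆ : Wr S.C (ZMod (3 * e))).g = ⁅x.g, y.g⁆ := h6
      rw [h7] at h2 ⊢
      exact S.comm _ _ h2
    apply Wr.ext
    · rw [h1, h4, Finsupp.single_zero, one_a]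
    · rw [h5, one_g]

theorem Stage.P_of_next {e : ℕ} (S : Stage G e) {h : Hh G} (hh : S.next.P h) : S.P h := by
  have h1 : S.up (ZMod (3 * e)) h ∈ Subgroup.zpowers (S.up (ZMod (3 * e)) (sg G)) := hh
  rw [S.up_sg] at h1
  obtain ⟨q, _, h2⟩ := mem_zpowers_el S.s_mem h1
  rw [S.up_g] at h2
  exact h2

theorem Stage.P_or {e : ℕ} (he : 0 < e) (S : Stage G e) {x w : Hh G} (h1 : S.next.P ⁅x, w⁆)
    (h2 : S.next.P ⁅x, sg G ^ e * w * (sg G ^ e)⁻¹⁆) : S.P x ∨ S.P w := by
  have h3 : ⁅S.up (ZMod (3 * e)) x, S.up (ZMod (3 * e)) w⁆ = 1 := by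
    apply S.next.comm
    have := h1
    unfold Stage.P at this
    rw [map_commutatorElement] at this
    exact this
  have h4 : ⁅S.up (ZMod (3 * e)) x, (el (e : ZMod (3 * e)) 1 : Wr S.C (ZMod (3 * e))) *
      S.up (ZMod (3 * e)) w * (el (e : ZMod (3 * e)) 1)⁻¹⁆ = 1 := by
    apply S.next.comm
    have := h2
    unfold Stage.P at this
    rw [map_commutatorElement, map_mul, map_mul, map_inv] at this
    have h5 : S.next.π (sg G ^ e) = (el (e : ZMod (3 * e)) 1 : Wr S.C (ZMod (3 * e))) := S.up_pow _
    rw [h5] at this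
    exact this
  rw [commutatorElement_eq_one_iff_mul_comm] at h3 h4
  have hr1 : (e : ZMod (3 * e)) ≠ 0 := by
    intro h
    rw [ZMod.natCast_eq_zero_iff] at h
    have := Nat.le_of_dvd he h
    omega
  have hr2 : (e : ZMod (3 * e)) + e ≠ 0 := by
    intro h
    have h' : ((e + e : ℕ) : ZMod (3 * e)) = 0 := by push_cast; exact h
    rw [ZMod.natCast_eq_zero_iff] at h'
    have := Nat.le_of_dvd (by omega) h'
    omega
  have := comm_pair hr1 hr2 h3 h4
  rw [S.up_g, S.up_g] at this
  exact this

theorem Stage.P_of_prod {e : ℕ} (he : 0 < e) (S : Stage G e) (L : List (Hh G))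
    (h : (L.map fun x => ⁅x, sg G ^ e⁆).prod = 1) : ∀ x ∈ L, S.P x := by
  classical
  have key : ∀ L : List (Hh G), ((S.up ℤ) (L.map fun x => ⁅x, sg G ^ e⁆).prod).g = 1 ∧
      ((S.up ℤ) (L.map fun x => ⁅x, sg G ^ e⁆).prod).a (x0 S.C) =
        (L.map fun x => if S.P x then (0 : ℤ) else -e).sum := by
    intro L
    induction L with
    | nil =>
      simp only [List.map_nil, List.prod_nil, map_one, List.sum_nil]
      exact ⟨rfl, rfl⟩
    | cons x L ih =>
      obtain ⟨ih1, ih2⟩ := ih
      rw [List.map_cons, List.prod_cons, map_mul, map_commutatorElement, S.up_pow, comm_el, mul_g,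
        mul_a, ih1]
      refine ⟨by simp, ?_⟩
      change ((Finsupp.single ((S.up ℤ x).g • x0 S.C) (e : ℤ) - Finsupp.single (x0 S.C) (e : ℤ)) +
        act S.C ℤ 1 ((S.up ℤ) (L.map fun x => ⁅x, sg G ^ e⁆).prod).a) (x0 S.C) = _
      rw [act_one, Finsupp.add_apply, Finsupp.sub_apply, ih2, List.map_cons, List.sum_cons,
        Finsupp.single_eq_same, Finsupp.single_apply, S.up_g]
      congr 1
      by_cases hx : S.P x
      · rw [if_pos ((smul_x0_eq _).2 hx), if_pos hx]
        simp
      · rw [if_neg (fun hh => hx ((smul_x0_eq _).1 hh)), if_neg hx]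
        simp
  have h1 := (key L).2
  rw [h, map_one, one_a] at h1
  change (0 : ℤ) = _ at h1
  clear key h
  -- a sum of nonpositive terms
  have key2 : ∀ L : List (Hh G), (L.map fun x => if S.P x then (0 : ℤ) else -e).sum ≤ 0 ∧
      ((L.map fun x => if S.P x then (0 : ℤ) else -e).sum = 0 → ∀ x ∈ L, S.P x) := by
    intro L
    induction L with
    | nil => simp
    | cons x L ih =>
      obtain ⟨i1, i2⟩ := ih
      rw [List.map_cons, List.sum_cons]
      by_cases hx : S.P x
      · rw [if_pos hx, zero_add]
        refine ⟨i1, fun h => ?_⟩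
        intro y hy
        rcases List.mem_cons.1 hy with rfl | hy
        · exact hx
        · exact i2 h y hy
      · rw [if_neg hx]
        have he' : (0 : ℤ) < e := by exact_mod_cast he
        refine ⟨by linarith, fun h => ?_⟩
        exfalso
        linarith
  exact (key2 L).2 h1.symm

/-- the exponents `1, 3, 9, ...` -/
def ex : ℕ → ℕ
  | 0 => 1
  | k + 1 => 3 * ex k

theorem ex_pos (k : ℕ) : 0 < ex k := by
  induction k with
  | zero => exact one_pos
  | succ k ih => simp only [ex]; omega

/-- the tower -/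
noncomputable def tower (G : Type u) [Group G] : (k : ℕ) → Stage G (ex k)
  | 0 => base G
  | k + 1 => (tower G k).next

theorem tower_anti (k j : ℕ) {h : Hh G} (hh : (tower G (k + j)).P h) : (tower G k).P h := by
  induction j with
  | zero => exact hh
  | succ j ih => exact ih (Stage.P_of_next _ hh)

theorem tower_rho (k : ℕ) {h : Hh G} (hh : (tower G k).P h) : rho G h = 1 := by
  have := tower_anti (G := G) 0 k (h := h) (by rw [zero_add]; exact hh)
  exact base_P h this

section dis

variable {K : Type u} [Group K]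

/-- the words for the disjunction with one more word -/
def step (s : K) (e : ℕ) (L : List K) (w : K) : List K :=
  L.flatMap fun E => [⁅E, w⁆, ⁅E, s ^ e * w * (s ^ e)⁻¹⁆]

/-- the words for a disjunction -/
def dis (s : K) : ℕ → List K → List K → List K
  | _, L, [] => L
  | k, L, w :: ws => dis s (k + 1) (step s (ex k) L w) ws

/-- the words for a disjunction -/
def disj (s : K) : List K → List K
  | [] => []
  | u :: ws => dis s 0 [u] ws

theorem dis_one (s : K) : ∀ (ws : List K) (k : ℕ) (L : List K),
    ((∀ E ∈ L, E = 1) ∨ ∃ w ∈ ws, w = 1) → ∀ E ∈ dis s k L ws, E = 1 := by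
  intro ws
  induction ws with
  | nil =>
    intro k L h E hE
    rcases h with h | ⟨w, hw, _⟩
    · exact h E hE
    · simp at hw
  | cons w ws ih =>
    intro k L h
    apply ih
    rcases h with h | ⟨w', hw', h1⟩
    · left
      intro E hE
      unfold step at hE
      rw [List.mem_flatMap] at hE
      obtain ⟨E', hE', hE⟩ := hE
      rw [h E' hE'] at hE
      simp at hE
      exact hE
    · rcases List.mem_cons.1 hw' with rfl | hw'
      · left
        intro E hE
        unfold step at hE
        rw [List.mem_flatMap] at hE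
        obtain ⟨E', hE', hE⟩ := hE
        rw [h1] at hE
        simp at hE
        exact hE
      · exact Or.inr ⟨w', hw', h1⟩

theorem disj_one (s : K) (ws : List K) (h : ∃ w ∈ ws, w = 1) : ∀ E ∈ disj s ws, E = 1 := by
  obtain ⟨w, hw, h1⟩ := h
  cases ws with
  | nil => simp at hw
  | cons u ws =>
    apply dis_one
    rcases List.mem_cons.1 hw with rfl | hw
    · left
      intro E hE
      rw [List.mem_singleton] at hE
      rw [hE, h1]
    · exact Or.inr ⟨w, hw, h1⟩

theorem map_step {K' : Type u} [Group K'] (f : K →* K') (s : K) (e : ℕ) (L : List K) (w : K) :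
    (step s e L w).map f = step (f s) e (L.map f) (f w) := by
  unfold step
  rw [List.map_flatMap, List.flatMap_map]
  congr 1
  funext E
  simp [map_commutatorElement]

theorem map_dis {K' : Type u} [Group K'] (f : K →* K') (s : K) : ∀ (ws : List K) (k : ℕ)
    (L : List K), (dis s k L ws).map f = dis (f s) k (L.map f) (ws.map f) := by
  intro ws
  induction ws with
  | nil => intro k L; rfl
  | cons w ws ih =>
    intro k L
    rw [dis, ih, map_step]
    rfl

end dis

theorem dis_P : ∀ (ws : List (Hh G)) (k : ℕ) (L : List (Hh G)),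
    (∀ E ∈ dis (sg G) k L ws, (tower G (k + ws.length)).P E) →
    (∀ E ∈ L, (tower G k).P E) ∨ ∃ w ∈ ws, rho G w = 1 := by
  intro ws
  induction ws with
  | nil => intro k L h; exact Or.inl h
  | cons w ws ih =>
    intro k L h
    have h' : ∀ E ∈ dis (sg G) (k + 1) (step (sg G) (ex k) L w) ws,
        (tower G (k + 1 + ws.length)).P E := by
      have e : k + (w :: ws).length = k + 1 + ws.length := by
        rw [List.length_cons]; omega
      rw [e] at h
      exact h
    rcases ih _ _ h' with h1 | ⟨w', hw', h1⟩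
    · by_cases hw : (tower G k).P w
      · exact Or.inr ⟨w, List.mem_cons_self, tower_rho k hw⟩
      · left
        intro E hE
        have a1 : ⁅E, w⁆ ∈ step (sg G) (ex k) L w := by
          unfold step
          rw [List.mem_flatMap]
          exact ⟨E, hE, by simp⟩
        have a2 : ⁅E, sg G ^ ex k * w * (sg G ^ ex k)⁻¹⁆ ∈ step (sg G) (ex k) L w := by
          unfold step
          rw [List.mem_flatMap]
          exact ⟨E, hE, by simp⟩
        rcases Stage.P_or (ex_pos k) (tower G k) (h1 _ a1) (h1 _ a2) with h2 | h2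
        · exact h2
        · exact absurd h2 hw
    · exact Or.inr ⟨w', List.mem_cons_of_mem _ hw', h1⟩

/-- **The main lemma.** -/
theorem core (m : ℕ) (φ : List (List (Hh G))) (h1 : ∀ cl ∈ φ, cl ≠ [])
    (hm : ∀ cl ∈ φ, cl.length ≤ m)
    (h : ((φ.flatMap (disj (sg G))).map fun x => ⁅x, sg G ^ ex m⁆).prod = 1) :
    ∀ cl ∈ φ, ∃ w ∈ cl, rho G w = 1 := by
  intro cl hcl
  have h2 := Stage.P_of_prod (ex_pos m) (tower G m) _ h
  cases hc : cl with
  | nil => exact absurd hc (h1 cl hcl)
  | cons u ws =>
    have hl : ws.length ≤ m := by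
      have := hm cl hcl
      rw [hc, List.length_cons] at this
      omega
    have h3 : ∀ E ∈ dis (sg G) 0 [u] ws, (tower G (0 + ws.length)).P E := by
      intro E hE
      have h4 : E ∈ φ.flatMap (disj (sg G)) := by
        rw [List.mem_flatMap]
        exact ⟨cl, hcl, by rw [hc]; exact hE⟩
      have h5 := h2 E h4
      obtain ⟨j, hj⟩ := Nat.exists_eq_add_of_le hl
      have e : m = (0 + ws.length) + j := by omega
      rw [e] at h5
      exact tower_anti _ j h5
    rcases dis_P ws 0 [u] h3 with h4 | ⟨w, hw, h4⟩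
    · exact ⟨u, List.mem_cons_self, tower_rho 0 (h4 u (by simp))⟩
    · exact ⟨w, List.mem_cons_of_mem _ hw, h4⟩

end Pool.Agent.X240.OR
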