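import Pool.Agent.X240.OR.Tower

/-!
# Words, and the word of a positive formula
-/

set_option autoImplicit false

namespace Pool.Agent.X240.OR

open scoped commutatorElement

universe u

/-- Words over an alphabet and the inverses of its letters: `(a, true)` is the letter `a` and
`(a, false)` its inverse. -/
abbrev Word (α : Type) : Type := List (α × Bool)

/-- The value of a word in a group, for given values of the letters. -/
def val {α : Type} {K : Type u} [Group K] (f : α → K) (w : Word α) : K :=
  (w.map fun p => if p.2 = true then f p.1 else (f p.1)⁻¹).prod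

/-- Each letter occurs as often as its inverse. -/
def Balanced {α : Type} [DecidableEq α] (w : Word α) : Prop :=
  ∀ a : α, w.count (a, true) = w.count (a, false)

section words

variable {α : Type}

/-- the inverse word -/
def winv (w : Word α) : Word α := (w.map fun p => (p.1, !p.2)).reverse

/-- the commutator of two words -/
def wcomm (u v : Word α) : Word α := u ++ v ++ winv u ++ winv v

/-- a conjugate -/
def wconj (c w : Word α) : Word α := c ++ w ++ winv c

/-- power of a letter -/
def wpow (σ : α) (e : ℕ) : Word α := List.replicate e (σ, true)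

/-- one more word of a disjunction -/
def wstep (σ : α) (st : ℕ × List (Word α)) (w : Word α) : ℕ × List (Word α) :=
  (3 * st.1, st.2.flatMap fun E => [wcomm E w, wcomm E (wconj (wpow σ st.1) w)])

/-- the words for a disjunction -/
def wdis (σ : α) (cl : List (Word α)) : List (Word α) :=
  (cl.tail.foldl (wstep σ) (1, [cl.headD []])).2

/-- `3 ^ n` for the length `n` of the list -/
def wtop {β : Type} (l : List β) : ℕ := l.foldl (fun e _ => 3 * e) 1

/-- the word for a positive formula in conjunctive normal form without empty disjunctions -/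
def wmain (σ : α) (φ : List (List (Word α))) : Word α :=
  (φ.flatMap (wdis σ)).flatMap fun E => wcomm E (wpow σ (wtop φ.flatten))

/-- The word for a positive formula in conjunctive normal form; `σ` is the additional letter. -/
def weq (σ : α) (φ : List (List (Word α))) : Word α :=
  if φ.any List.isEmpty then [(σ, true)] else wmain σ φ

variable {K : Type u} [Group K] (f : α → K)

theorem val_nil : val f [] = 1 := rfl

theorem val_append (u v : Word α) : val f (u ++ v) = val f u * val f v := by
  simp [val, List.map_append, List.prod_append]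

theorem val_cons (p : α × Bool) (v : Word α) :
    val f (p :: v) = (if p.2 = true then f p.1 else (f p.1)⁻¹) * val f v := by
  simp [val]

theorem val_single (σ : α) : val f [(σ, true)] = f σ := by simp [val]

theorem val_winv (w : Word α) : val f (winv w) = (val f w)⁻¹ := by
  induction w with
  | nil => simp [winv, val]
  | cons p w ih =>
    have : winv (p :: w) = winv w ++ [(p.1, !p.2)] := by simp [winv]
    rw [this, val_append, ih, val_cons f p w, mul_inv_rev]
    congr 1
    obtain ⟨a, b⟩ := p
    cases b <;> simp [val]

theorem val_wcomm (u v : Word α) : val f (wcomm u v) = ⁅val f u, val f v⁆ := by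
  simp only [wcomm, val_append, val_winv, commutatorElement_def]

theorem val_wconj (c w : Word α) : val f (wconj c w) = val f c * val f w * (val f c)⁻¹ := by
  simp only [wconj, val_append, val_winv]

theorem val_wpow (σ : α) (e : ℕ) : val f (wpow σ e) = f σ ^ e := by
  simp [val, wpow]

theorem map_wstep (σ : α) (k : ℕ) (L : List (Word α)) (w : Word α) :
    (wstep σ (ex k, L) w).1 = ex (k + 1) ∧
      (wstep σ (ex k, L) w).2.map (val f) = step (f σ) (ex k) (L.map (val f)) (val f w) := by
  refine ⟨rfl, ?_⟩
  unfold wstep step
  rw [List.map_flatMap, List.flatMap_map]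
  congr 1
  funext E
  simp only [List.map_cons, List.map_nil, val_wcomm, val_wconj, val_wpow]

theorem map_foldl (σ : α) : ∀ (ws : List (Word α)) (k : ℕ) (L : List (Word α)),
    (ws.foldl (wstep σ) (ex k, L)).2.map (val f) = dis (f σ) k (L.map (val f)) (ws.map (val f)) := by
  intro ws
  induction ws with
  | nil => intro k L; rfl
  | cons w ws ih =>
    intro k L
    rw [List.foldl_cons]
    have h := map_wstep f σ k L w
    have e : wstep σ (ex k, L) w = (ex (k + 1), (wstep σ (ex k, L) w).2) := Prod.ext h.1 rfl
    rw [e, ih, h.2]
    rfl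

theorem map_wdis (σ : α) (cl : List (Word α)) (h : cl ≠ []) :
    (wdis σ cl).map (val f) = disj (f σ) (cl.map (val f)) := by
  cases cl with
  | nil => exact absurd rfl h
  | cons u ws =>
    have := map_foldl f σ ws 0 [u]
    exact this

theorem wtop_eq {β : Type} (l : List β) : wtop l = ex l.length := by
  have : ∀ (l : List β) (k : ℕ), l.foldl (fun e _ => 3 * e) (ex k) = ex (k + l.length) := by
    intro l
    induction l with
    | nil => intro k; rfl
    | cons b l ih =>
      intro k
      rw [List.foldl_cons, List.length_cons, show k + (l.length + 1) = k + 1 + l.length by omega,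
        ← ih (k + 1)]
      rfl
  have h := this l 0
  rw [zero_add] at h
  exact h

theorem val_flatMap {β : Type} (l : List β) (g : β → Word α) :
    val f (l.flatMap g) = (l.map fun b => val f (g b)).prod := by
  induction l with
  | nil => rfl
  | cons b l ih => rw [List.flatMap_cons, val_append, ih, List.map_cons, List.prod_cons]

theorem flatMap_congr' {β γ : Type} {l : List β} {g g' : β → List γ} (h : ∀ b ∈ l, g b = g' b) :
    l.flatMap g = l.flatMap g' := by
  induction l with
  | nil => rfl
  | cons b l ih =>
    rw [List.flatMap_cons, List.flatMap_cons, h b List.mem_cons_self,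
      ih fun b' hb' => h b' (List.mem_cons_of_mem _ hb')]

end words

section fm

variable {α : Type} {K : Type u} [Group K] (f : α → K)

theorem flatMap_congr2 {β : Type} {γ : Type u} {l : List β} {g g' : β → List γ}
    (h : ∀ b ∈ l, g b = g' b) : l.flatMap g = l.flatMap g' := by
  induction l with
  | nil => rfl
  | cons b l ih =>
    rw [List.flatMap_cons, List.flatMap_cons, h b List.mem_cons_self,
      ih fun b' hb' => h b' (List.mem_cons_of_mem _ hb')]

theorem val_wmain (σ : α) (φ : List (List (Word α))) (h : ∀ cl ∈ φ, cl ≠ []) :
    val f (wmain σ φ) = ((((φ.map fun cl => cl.map (val f)).flatMap (disj (f σ))).map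
      fun x => ⁅x, f σ ^ ex φ.flatten.length⁆).prod) := by
  unfold wmain
  rw [val_flatMap]
  congr 1
  have h1 : (φ.map fun cl => cl.map (val f)).flatMap (disj (f σ)) =
      (φ.flatMap (wdis σ)).map (val f) := by
    rw [List.flatMap_map, List.map_flatMap]
    exact flatMap_congr2 fun cl hcl => (map_wdis f σ cl (h cl hcl)).symm
  rw [h1, List.map_map]
  apply List.map_congr_left
  intro E _
  rw [val_wcomm, val_wpow, wtop_eq]
  rfl

end fm

theorem sg_ne_one (G : Type u) [Group G] : sg G ≠ 1 := by
  intro h
  have h1 : (Monoid.Coprod.lift (1 : G →* Multiplicative ℤ) (MonoidHom.id _)) (sg G) = 1 := by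
    rw [h, map_one]
  unfold sg at h1
  rw [Monoid.Coprod.lift_apply_inr] at h1
  have h2 : (1 : ℤ) = 0 := h1
  omega

theorem map_val {α : Type} {K K' : Type u} [Group K] [Group K'] (q : K →* K') (f : α → K)
    (w : Word α) : q (val f w) = val (fun a => q (f a)) w := by
  unfold val
  rw [map_list_prod, List.map_map]
  congr 1
  apply List.map_congr_left
  intro p _
  simp only [Function.comp]
  split_ifs <;> simp

/-- letters of a word replaced by other letters -/
def rename {α β : Type} (e : α → β) (w : Word α) : Word β := w.map fun p => (e p.1, p.2)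

theorem val_rename {α β : Type} {K : Type u} [Group K] (e : α → β) (f : β → K) (w : Word α) :
    val f (rename e w) = val (fun a => f (e a)) w := by
  unfold val rename
  rw [List.map_map]
  rfl

/-- **The reduction**, for a group `G'` with homomorphisms `G → G' → G * ℤ`. -/
theorem transfer {A A' V : Type} (emb : A → A') (σ : A') {G G' : Type u} [Group G] [Group G']
    (α : A → G) (β : A' → G') (j : G →* G') (q : G' →* Hh G)
    (hj : ∀ a, j (α a) = β (emb a)) (hq : ∀ a, q (β (emb a)) = Monoid.Coprod.inl (α a))
    (hσ : q (β σ) = sg G) (φ : List (List (Word (A ⊕ V)))) :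
    (∃ x : V → G, ∀ cl ∈ φ, ∃ w ∈ cl, val (Sum.elim α x) w = 1) ↔
      ∃ x : V → G', val (Sum.elim β x) (weq (Sum.inl σ)
        (φ.map fun cl => cl.map fun w => rename (Sum.map emb id) w)) = 1 := by
  set φ' : List (List (Word (A' ⊕ V))) := φ.map fun cl => cl.map fun w =>
    rename (Sum.map emb id) w with hφ'
  have hemp : φ'.any List.isEmpty = true ↔ ∃ cl ∈ φ, cl = [] := by
    rw [List.any_eq_true]
    constructor
    · rintro ⟨cl', h1, h2⟩
      rw [hφ', List.mem_map] at h1
      obtain ⟨cl, h3, rfl⟩ := h1
      exact ⟨cl, h3, by simpa using h2⟩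
    · rintro ⟨cl, h1, rfl⟩
      exact ⟨[], by rw [hφ', List.mem_map]; exact ⟨[], h1, rfl⟩, rfl⟩
  constructor
  · rintro ⟨x, hx⟩
    refine ⟨fun v => j (x v), ?_⟩
    have hne : ¬ (φ'.any List.isEmpty = true) := by
      rw [hemp]
      rintro ⟨cl, h1, rfl⟩
      obtain ⟨w, hw, _⟩ := hx _ h1
      simp at hw
    have hne' : ∀ cl ∈ φ', cl ≠ [] := by
      intro cl hcl h
      apply hne
      rw [List.any_eq_true]
      exact ⟨cl, hcl, by rw [h]; rfl⟩
    unfold weq
    rw [if_neg hne, val_wmain _ _ _ hne']
    apply List.prod_eq_one
    intro z hz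
    rw [List.mem_map] at hz
    obtain ⟨E, hE, rfl⟩ := hz
    rw [List.mem_flatMap] at hE
    obtain ⟨cl', hcl', hE⟩ := hE
    rw [List.mem_map] at hcl'
    obtain ⟨cl2, hcl2, rfl⟩ := hcl'
    rw [hφ', List.mem_map] at hcl2
    obtain ⟨cl, hcl, rfl⟩ := hcl2
    have : E = 1 := by
      refine disj_one _ _ ?_ E hE
      obtain ⟨w, hw, h1⟩ := hx cl hcl
      refine ⟨_, List.mem_map.2 ⟨rename (Sum.map emb id) w, List.mem_map.2 ⟨w, hw, rfl⟩, rfl⟩, ?_⟩
      rw [val_rename]
      have h2 : (fun a => Sum.elim β (fun v => j (x v)) (Sum.map emb id a)) =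
          fun a => j (Sum.elim α x a) := by
        funext a
        cases a with
        | inl a => simp [hj]
        | inr v => simp
      rw [h2, ← map_val, h1, map_one]
    rw [this]
    simp
  · rintro ⟨x, hx⟩
    have hx' : val (fun a => q (Sum.elim β x a)) (weq (Sum.inl σ) φ') = 1 := by
      rw [← map_val, hx, map_one]
    set F : A' ⊕ V → Hh G := fun a => q (Sum.elim β x a) with hF
    have hFσ : F (Sum.inl σ) = sg G := hσ
    by_cases he : φ'.any List.isEmpty = true
    · exfalso
      unfold weq at hx'
      rw [if_pos he, val_single, hFσ] at hx'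
      exact sg_ne_one G hx'
    · have hne' : ∀ cl ∈ φ', cl ≠ [] := by
        intro cl hcl h
        apply he
        rw [List.any_eq_true]
        exact ⟨cl, hcl, by rw [h]; rfl⟩
      unfold weq at hx'
      rw [if_neg he, val_wmain _ _ _ hne', hFσ] at hx'
      have hcore := core (G := G) φ'.flatten.length (φ'.map fun cl => cl.map (val F)) (by
        intro cl hcl
        rw [List.mem_map] at hcl
        obtain ⟨cl', h1, rfl⟩ := hcl
        intro h
        exact hne' cl' h1 (List.map_eq_nil_iff.1 h)) (by
        intro cl hcl
        rw [List.mem_map] at hcl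
        obtain ⟨cl', h1, rfl⟩ := hcl
        rw [List.length_map]
        exact (List.sublist_flatten_of_mem h1).length_le) hx'
      refine ⟨fun v => rho G (q (x v)), ?_⟩
      intro cl hcl
      obtain ⟨z, hz, h1⟩ := hcore ((cl.map fun w => rename (Sum.map emb id) w).map (val F)) (by
        rw [List.mem_map]
        exact ⟨_, List.mem_map.2 ⟨cl, hcl, rfl⟩, rfl⟩)
      rw [List.mem_map] at hz
      obtain ⟨w', hw', rfl⟩ := hz
      rw [List.mem_map] at hw'
      obtain ⟨w, hw, rfl⟩ := hw'
      refine ⟨w, hw, ?_⟩
      rw [val_rename, map_val] at h1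
      have h2 : (fun a => rho G (F (Sum.map emb id a))) =
          Sum.elim α (fun v => rho G (q (x v))) := by
        funext a
        cases a with
        | inl a => simp [hF, hq, rho_inl]
        | inr v => simp [hF]
      rw [h2] at h1
      exact h1

end Pool.Agent.X240.OR
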