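import Mathlib

/-!
# Groups of pairs `(a, g)`: `a` a finitely supported function on the cosets of a subgroup
-/

set_option autoImplicit false

namespace Pool.Agent.X240.OR

open scoped commutatorElement

universe u

variable {Γ : Type u} [Group Γ] (C : Subgroup Γ) (R : Type) [CommRing R]

/-- The semidirect product of the finitely supported functions on `Γ ⧸ C` with values in `R` and
of `Γ`. -/
@[ext] structure Wr where
  /-- the function -/
  a : (Γ ⧸ C) →₀ R
  /-- the group element -/
  g : Γ

/-- translation of functions on the cosets -/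
noncomputable def act (g : Γ) : ((Γ ⧸ C) →₀ R) →+ ((Γ ⧸ C) →₀ R) :=
  Finsupp.mapDomain.addMonoidHom (fun x => g • x)

variable {C R}

theorem act_single (g : Γ) (x : Γ ⧸ C) (r : R) :
    act C R g (Finsupp.single x r) = Finsupp.single (g • x) r := by
  simp [act, Finsupp.mapDomain_single]

theorem act_one (a : (Γ ⧸ C) →₀ R) : act C R 1 a = a := by
  simp only [act, Finsupp.mapDomain.addMonoidHom_apply, one_smul]
  exact Finsupp.mapDomain_id

theorem act_mul (g h : Γ) (a : (Γ ⧸ C) →₀ R) :
    act C R (g * h) a = act C R g (act C R h a) := by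
  simp only [act, Finsupp.mapDomain.addMonoidHom_apply]
  rw [← Finsupp.mapDomain_comp]
  congr 1
  funext x
  exact mul_smul g h x

noncomputable instance : Group (Wr C R) where
  mul x y := ⟨x.a + act C R x.g y.a, x.g * y.g⟩
  one := ⟨0, 1⟩
  inv x := ⟨-(act C R x.g⁻¹ x.a), x.g⁻¹⟩
  mul_assoc x y z := by
    apply Wr.ext
    · change (x.a + act C R x.g y.a) + act C R (x.g * y.g) z.a =
        x.a + act C R x.g (y.a + act C R y.g z.a)
      rw [map_add, act_mul, add_assoc]
    · exact mul_assoc _ _ _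
  one_mul x := by
    apply Wr.ext
    · change (0 : (Γ ⧸ C) →₀ R) + act C R 1 x.a = x.a
      rw [act_one, zero_add]
    · exact one_mul _
  mul_one x := by
    apply Wr.ext
    · change x.a + act C R x.g 0 = x.a
      rw [map_zero, add_zero]
    · exact mul_one _
  inv_mul_cancel x := by
    apply Wr.ext
    · change -(act C R x.g⁻¹ x.a) + act C R x.g⁻¹ x.a = 0
      simp
    · exact inv_mul_cancel _

theorem mul_a (x y : Wr C R) : (x * y).a = x.a + act C R x.g y.a := rfl
theorem mul_g (x y : Wr C R) : (x * y).g = x.g * y.g := rfl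
theorem one_a : (1 : Wr C R).a = 0 := rfl
theorem one_g : (1 : Wr C R).g = 1 := rfl
theorem inv_a (x : Wr C R) : (x⁻¹).a = -(act C R x.g⁻¹ x.a) := rfl
theorem inv_g (x : Wr C R) : (x⁻¹).g = x.g⁻¹ := rfl

/-- the projection to `Γ` -/
def right : Wr C R →* Γ where
  toFun x := x.g
  map_one' := rfl
  map_mul' _ _ := rfl

/-- the inclusion of `Γ` -/
noncomputable def inr : Γ →* Wr C R where
  toFun g := ⟨0, g⟩
  map_one' := rfl
  map_mul' g h := by
    apply Wr.ext
    · rw [mul_a]
      simp
    · rfl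

/-- the sum of the values -/
noncomputable def augH (C : Subgroup Γ) (R : Type) [CommRing R] : ((Γ ⧸ C) →₀ R) →+ R :=
  Finsupp.liftAddHom (fun _ => AddMonoidHom.id R)

theorem augH_single (x : Γ ⧸ C) (r : R) : augH C R (Finsupp.single x r) = r := by
  simp [augH]

theorem augH_act (g : Γ) (a : (Γ ⧸ C) →₀ R) : augH C R (act C R g a) = augH C R a := by
  have h : (augH C R).comp (act C R g) = augH C R := by
    apply Finsupp.addHom_ext
    intro x r
    rw [AddMonoidHom.comp_apply, act_single, augH_single, augH_single]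
  exact DFunLike.congr_fun h a

/-- the sum of the values as a homomorphism -/
noncomputable def aug : Wr C R →* Multiplicative R where
  toFun x := Multiplicative.ofAdd (augH C R x.a)
  map_one' := by
    rw [one_a, map_zero]; rfl
  map_mul' x y := by
    rw [mul_a, map_add, augH_act]; rfl

/-- the coset of the unit element -/
def x0 (C : Subgroup Γ) : Γ ⧸ C := ((1 : Γ) : Γ ⧸ C)

theorem smul_x0 (g : Γ) : g • x0 C = ((g : Γ) : Γ ⧸ C) := by
  change ((g * 1 : Γ) : Γ ⧸ C) = _
  rw [mul_one]

theorem smul_x0_eq (g : Γ) : g • x0 C = x0 C ↔ g ∈ C := by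
  rw [smul_x0]
  unfold x0
  rw [QuotientGroup.eq]
  simp

/-- the element `(r δ, g)` where `δ` is the characteristic function of the coset `C` -/
noncomputable def el (r : R) (g : Γ) : Wr C R := ⟨Finsupp.single (x0 C) r, g⟩

theorem el_pow (r : R) {s : Γ} (hs : s ∈ C) (n : ℕ) :
    (el r s : Wr C R) ^ n = el (n * r) (s ^ n) := by
  induction n with
  | zero =>
    rw [pow_zero]
    apply Wr.ext
    · rw [one_a]; simp [el]
    · rw [one_g]; simp [el]
  | succ n ih =>
    rw [pow_succ, ih]
    apply Wr.ext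
    · rw [mul_a]
      change Finsupp.single (x0 C) (n * r) + act C R (s ^ n) (Finsupp.single (x0 C) r) = _
      rw [act_single, (smul_x0_eq _).2 (pow_mem hs n), ← Finsupp.single_add]
      have hh : (n : R) * r + r = ((n + 1 : ℕ) : R) * r := by push_cast; ring
      rw [hh]
      rfl
    · rw [mul_g]
      exact (pow_succ s n).symm

theorem el_inv (r : R) {s : Γ} (hs : s ∈ C) : (el r s : Wr C R)⁻¹ = el (-r) s⁻¹ := by
  apply Wr.ext
  · rw [inv_a]
    change -(act C R s⁻¹ (Finsupp.single (x0 C) r)) = Finsupp.single (x0 C) (-r)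
    rw [act_single, (smul_x0_eq _).2 (inv_mem hs), Finsupp.single_neg]
  · rfl

/-- the powers of `(r δ, s)` -/
theorem mem_zpowers_el {r : R} {s : Γ} (hs : s ∈ C) {z : Wr C R}
    (hz : z ∈ Subgroup.zpowers (el r s : Wr C R)) :
    ∃ q : R, z.a = Finsupp.single (x0 C) q ∧ z.g ∈ Subgroup.zpowers s := by
  obtain ⟨j, rfl⟩ := Subgroup.mem_zpowers_iff.1 hz
  obtain ⟨n, rfl | rfl⟩ := j.eq_nat_or_neg
  · rw [zpow_natCast, el_pow r hs]
    exact ⟨_, rfl, Subgroup.npow_mem_zpowers s n⟩
  · rw [zpow_neg, zpow_natCast, el_pow r hs, el_inv _ (pow_mem hs n)]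
    exact ⟨_, rfl, inv_mem (Subgroup.npow_mem_zpowers s n)⟩

/-- the commutator with `(r δ, 1)` -/
theorem comm_el (r : R) (x : Wr C R) :
    ⁅x, (el r 1 : Wr C R)⁆ = ⟨Finsupp.single (x.g • x0 C) r - Finsupp.single (x0 C) r, 1⟩ := by
  rw [commutatorElement_def]
  apply Wr.ext
  · have h1 : (el r 1 : Wr C R)⁻¹ = el (-r) 1 := by
      rw [el_inv r (one_mem C), inv_one]
    rw [h1]
    rw [mul_a, mul_a, mul_a, inv_a]
    change x.a + act C R x.g (Finsupp.single (x0 C) r) +
      act C R (x.g * 1) (-(act C R x.g⁻¹ x.a)) +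
      act C R (x.g * 1 * x.g⁻¹) (Finsupp.single (x0 C) (-r)) = _
    rw [mul_one, mul_inv_cancel, act_one, map_neg, ← act_mul, mul_inv_cancel, act_one, act_single,
      Finsupp.single_neg, ← sub_eq_add_neg, ← sub_eq_add_neg, add_sub_cancel_left]
  · rw [mul_g, mul_g, mul_g, inv_g, inv_g]
    change x.g * 1 * x.g⁻¹ * 1⁻¹ = 1
    simp

/-- If `(a, g)` commutes with `(b, h)` and with its conjugate by `(r δ, 1)`, and `r`, `2 r` are not
zero, then `g ∈ C` or `h ∈ C`. -/
theorem comm_pair {r : R} (h1 : r ≠ 0) (h2 : r + r ≠ 0) {x y : Wr C R} (hxy : x * y = y * x)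
    (hc : x * ((el r 1 : Wr C R) * y * (el r 1 : Wr C R)⁻¹) =
      ((el r 1 : Wr C R) * y * (el r 1 : Wr C R)⁻¹) * x) : x.g ∈ C ∨ y.g ∈ C := by
  classical
  have e1 : (el r 1 : Wr C R)⁻¹ = el (-r) 1 := by rw [el_inv r (one_mem C), inv_one]
  rw [e1] at hc
  have hd : ((el r 1 : Wr C R) * y * (el (-r) 1 : Wr C R)).a =
      Finsupp.single (x0 C) r + y.a - Finsupp.single (y.g • x0 C) r := by
    rw [mul_a, mul_a]
    change Finsupp.single (x0 C) r + act C R 1 y.a +
      act C R (1 * y.g) (Finsupp.single (x0 C) (-r)) = _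
    rw [act_one, one_mul, act_single, Finsupp.single_neg]
    abel
  have hg : ((el r 1 : Wr C R) * y * (el (-r) 1 : Wr C R)).g = y.g := by
    rw [mul_g, mul_g]
    change 1 * y.g * 1 = y.g
    simp
  have ha := congrArg Wr.a hxy
  have hb := congrArg Wr.a hc
  rw [mul_a, mul_a] at ha
  rw [mul_a x, mul_a _ x, hd, hg] at hb
  rw [map_sub, map_add, act_single, act_single] at hb
  have hk : Finsupp.single (x.g • x0 C) r - Finsupp.single (x.g • y.g • x0 C) r =
      Finsupp.single (x0 C) r - Finsupp.single (y.g • x0 C) r := by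
    have : x.a + (Finsupp.single (x.g • x0 C) r + act C R x.g y.a -
        Finsupp.single (x.g • y.g • x0 C) r) - (x.a + act C R x.g y.a) =
        Finsupp.single (x0 C) r + y.a - Finsupp.single (y.g • x0 C) r + act C R y.g x.a -
          (y.a + act C R y.g x.a) := by rw [hb, ha]
    have l : x.a + (Finsupp.single (x.g • x0 C) r + act C R x.g y.a -
        Finsupp.single (x.g • y.g • x0 C) r) - (x.a + act C R x.g y.a) =
        Finsupp.single (x.g • x0 C) r - Finsupp.single (x.g • y.g • x0 C) r := by abel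
    have l' : Finsupp.single (x0 C) r + y.a - Finsupp.single (y.g • x0 C) r + act C R y.g x.a -
          (y.a + act C R y.g x.a) =
        Finsupp.single (x0 C) r - Finsupp.single (y.g • x0 C) r := by abel
    rw [l, l'] at this
    exact this
  by_contra hn
  push Not at hn
  obtain ⟨n1, n2⟩ := hn
  have n1' : x.g • x0 C ≠ x0 C := fun h => n1 ((smul_x0_eq _).1 h)
  have n2' : y.g • x0 C ≠ x0 C := fun h => n2 ((smul_x0_eq _).1 h)
  have hv := DFunLike.congr_fun hk (x0 C)
  rw [Finsupp.sub_apply, Finsupp.sub_apply, Finsupp.single_eq_same,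
    Finsupp.single_apply, Finsupp.single_apply, Finsupp.single_apply, if_neg n1', if_neg n2'] at hv
  by_cases h3 : x.g • y.g • x0 C = x0 C
  · rw [if_pos h3] at hv
    apply h2
    have : r = -r := by simpa using hv.symm
    nth_rewrite 1 [this]
    simp
  · rw [if_neg h3] at hv
    apply h1
    simpa using hv.symm

end Pool.Agent.X240.OR
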